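import Pool.Agent.helper84.LP.SpecG
import Pool.Agent.helper34.IR.FWD
import Pool.Agent.helper9.IR.BK2

/-!
MP_07c750, project LP, row FGD: forward functions outside of the low entropy part
-/

open scoped MatrixGroups ContDiff Topology UpperHalfPlane ComplexConjugate
open UpperHalfPlane MeasureTheory Filter Set

set_option autoImplicit false

namespace Pool.Agent.LP

open Pool.Agent.RS
open Pool.Agent.MS (bq BB BA SF pf)
open Pool.Agent.HV (FW)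
open Pool.Agent.EN (XG MG mkX mkM fl pr)
open Pool.Agent.ER (Low LowJ)

noncomputable section

/-- the leaf inequality outside of few boxes, for fixed parameters (the conclusion of LGD) -/
def FGD_L (Γ : Subgroup SL(2, ℝ)) (C1 a η h β b : ℝ) (G : ℕ) : Prop :=
  ∃ (C : ℝ) (m0 : ℕ), 1 ≤ C ∧ ∀ (m : ℕ) (Au Ad : Finset SL(2, ℝ)), m0 ≤ m → (Au.card : ℝ) ≤ Real.exp ((h + η) * (G * m)) → (Ad.card : ℝ) ≤ Real.exp ((h + η) * m) →
    ∃ Ab : Finset SL(2, ℝ), (Ab.card : ℝ) ≤ Real.exp (β * (G * m)) ∧ ∀ (g : SL(2, ℝ)) (Y : Set ℝ) (J : Finset ℤ) (c : ℤ → ℂ), MeasurableSet Y → Y ⊆ Icc (0 : ℝ) 1 →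
      (∀ v ∈ Y, g * lM v ∉ FW Γ Ab b (Real.exp (-(G * m))) ∧ g * lM v * aM (G * m) ∈ FW Γ Au (16 * b) (Real.exp (-(G * m))) ∧ g * lM v * aM ((2 * (G : ℝ) - 1) * m) ∈ FW Γ Ad (16 * b) (Real.exp (-m))) →
      AR C1 a η G m (DJ G m J) →
        ∫ v in Y, ‖∑ j ∈ J, c j * ee (Real.pi * j * v / 2)‖ ^ 2 ≤ C * (Real.exp ((h + η - 1) * m) + Real.exp (-m)) * ∑ j ∈ J, ‖c j‖ ^ 2

/-- numbers: `C (e^((h+η-1)m) + e^(-m)) → 0` -/
theorem FGD_num (C x Q : ℝ) (hx : x < 0) (hQ : 0 < Q) : ∃ m0 : ℕ, ∀ m : ℕ, m0 ≤ m → C * (Real.exp (x * m) + Real.exp (-m)) ≤ Q := by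
  have hm : Tendsto (fun m : ℕ => (m : ℝ)) atTop atTop := tendsto_natCast_atTop_atTop
  have h1 : Tendsto (fun m : ℕ => Real.exp (x * m)) atTop (𝓝 0) := by
    refine Real.tendsto_exp_atBot.comp ?_
    exact hm.const_mul_atTop_of_neg hx
  have h2 : Tendsto (fun m : ℕ => Real.exp (-(m : ℝ))) atTop (𝓝 0) := Real.tendsto_exp_neg_atTop_nhds_zero.comp hm
  have h3 : Tendsto (fun m : ℕ => C * (Real.exp (x * m) + Real.exp (-(m : ℝ)))) atTop (𝓝 0) := by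
    have h4 := (h1.add h2).const_mul C
    rwa [add_zero, mul_zero] at h4
  obtain ⟨m0, h5⟩ := eventually_atTop.1 (h3.eventually (gt_mem_nhds hQ))
  exact ⟨m0, fun m hm' => (h5 m hm').le⟩

/-- **the core**: only the conclusion of LGD is used -/
theorem FGD_core (hBXM : MS.BXM_stmt) (hSFP : IR.SFP_stmt) (hWCO : WCO_stmt) (hLOB : IR.LOB_stmt) (hXFL : EN.XFL_stmt) (hGLC : RS.GLC_stmt)
    (Γ : Subgroup SL(2, ℝ)) (μ : Measure (XG Γ)) (E : Set (XG Γ)) (a η h β : ℝ) (G : ℕ) (hΓ : QU.SurfaceGroup Γ) (hμ : IsProbabilityMeasure μ) (hinv : ∀ t, μ.map (fl Γ t) = μ)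
    (hη : 0 < η) (hhη : h + η < 1) (hβ : 0 ≤ β) (hGe : Even G) (hG2 : 2 ≤ G) (hL : ∀ C1 b : ℝ, 1 ≤ C1 → 0 < b → b ≤ 1 / 6400 → FGD_L Γ C1 a η h β b G) (hCO : CO Γ μ E h) :
    FF Γ μ a η G (E \ Low Γ μ β) := by
  intro δ hδ
  have hlM : Continuous lM := hGLC.2.2.2.2.2.1
  obtain ⟨a0, ha0, -, hB⟩ := hBXM Γ hΓ
  obtain ⟨b1, hb1, hLO⟩ := hLOB Γ μ β hΓ hμ hinv hβ (δ / 3) (by positivity)
  obtain ⟨b, hb, hb2, hb3, hb4⟩ : ∃ b : ℝ, 0 < b ∧ b ≤ a0 ∧ b ≤ 1 / 6400 ∧ 16 * b ≤ b1 := by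
    refine ⟨min a0 (min (1 / 6400) (b1 / 16)), lt_min ha0 (lt_min (by norm_num) (by linarith)), min_le_left _ _, (min_le_right _ _).trans (min_le_left _ _), ?_⟩
    have h1 : min a0 (min (1 / 6400) (b1 / 16)) ≤ b1 / 16 := (min_le_right _ _).trans (min_le_right _ _)
    linarith
  obtain ⟨CB, hCB, hBX⟩ := hB b hb hb2
  obtain ⟨q0, hq0⟩ := hLO (16 * b) (by linarith) hb4
  obtain ⟨n0, hn0⟩ := hWCO Γ μ E h hΓ hμ hinv hCO b η (δ / 3) hb hη (by positivity)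
  refine ⟨3 * CB + 1, by linarith, fun C1 Q hC1 hQ => ?_⟩
  obtain ⟨C, m1, hC, hLm⟩ := hL C1 b hC1 hb hb3
  obtain ⟨m2, hm2⟩ := FGD_num C (h + η - 1) Q (by linarith) hQ
  refine ⟨max (max m1 m2) (max q0 n0), fun m hm => ?_⟩
  have hma : m1 ≤ m := ((le_max_left _ _).trans (le_max_left _ _)).trans hm
  have hmb : m2 ≤ m := ((le_max_right _ _).trans (le_max_left _ _)).trans hm
  have hmc : q0 ≤ m := ((le_max_left _ _).trans (le_max_right _ _)).trans hm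
  have hmd : n0 ≤ m := ((le_max_right _ _).trans (le_max_right _ _)).trans hm
  have hm0 : (0 : ℝ) ≤ m := Nat.cast_nonneg m
  have hG2' : (2 : ℝ) ≤ G := by exact_mod_cast hG2
  have hGm : (0 : ℝ) ≤ G * m := by positivity
  have hGm' : (m : ℝ) ≤ G * m := by nlinarith
  have ecg : ((G * m : ℕ) : ℝ) = (G : ℝ) * m := by push_cast; rfl
  have ecs : (((2 * G - 1) * m : ℕ) : ℝ) = (2 * (G : ℝ) - 1) * m := by
    rw [Nat.cast_mul, Nat.cast_sub (by omega)]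
    push_cast
    rfl
  have hnG : n0 ≤ G * m := hmd.trans (Nat.le_mul_of_pos_left m (by omega))
  obtain ⟨Au, hAu, mAu⟩ := hn0 (G * m) hnG
  obtain ⟨Ad, hAd, mAd⟩ := hn0 m hmd
  have mAu' := mAu (G * m)
  have mAd' := mAd ((2 * G - 1) * m)
  rw [ecg] at hAu mAu'
  rw [ecs] at mAd'
  obtain ⟨Ab, hAb, hint⟩ := hLm m Au Ad hma hAu hAd
  obtain ⟨Ψu, Ψua, Ψun, Ψul, Su, Iu, Nu, Lu, Bu, Zu⟩ := hBX ((G : ℝ) * m) Au hGm
  obtain ⟨Ψd, Ψda, Ψdn, Ψdl, Sd, Id, Nd, Ld, Bd, Zd⟩ := hBX (m : ℝ) Ad hm0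
  obtain ⟨Ψb, Ψba, Ψbn, Ψbl, Sb, Ib, Nb, Lb, Bb, Zb⟩ := hBX ((G : ℝ) * m) Ab hGm
  have hSu := (hSFP Γ _ _ _ _ Su).2.2 ((G : ℝ) * m)
  have hSd := (hSFP Γ _ _ _ _ Sd).2.2 ((2 * (G : ℝ) - 1) * m)
  have hSb := (hSFP Γ _ _ _ _ Sb).2.1
  have hSud := (hSFP Γ _ _ _ _ hSu).1 _ _ _ _ hSd
  have hS := (hSFP Γ _ _ _ _ hSb).1 _ _ _ _ hSud
  have hIb : ∀ g, 0 ≤ 1 - Ψb g ∧ 1 - Ψb g ≤ 1 := fun g => ⟨by linarith [(Ib g).2], by linarith [(Ib g).1]⟩
  have hsm : 0 ≤ (2 * (G : ℝ) - 1) * m := mul_nonneg (by linarith) hm0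
  refine ⟨_, _, _, _, hS, ?_, ?_, ?_, ?_, ?_⟩
  · intro g
    have h0 := hIb g
    have h1 := Iu (g * aM (G * m))
    have h2 := Id (g * aM ((2 * (G : ℝ) - 1) * m))
    exact ⟨mul_nonneg h0.1 (mul_nonneg h1.1 h2.1), mul_le_one₀ h0.2 (mul_nonneg h1.1 h2.1) (mul_le_one₀ h1.2 h2.1 h2.2)⟩
  · intro g
    have hx : |-Ψbn g| ≤ CB := by
      rw [abs_neg]
      exact Nb g
    have hy : |Real.exp (-((G : ℝ) * m)) * Ψun (g * aM (G * m))| ≤ CB := by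
      rw [abs_mul, Real.abs_exp]
      exact (mul_le_of_le_one_left (abs_nonneg _) (Real.exp_le_one_iff.2 (by linarith))).trans (Nu _)
    have hz : |Real.exp (-((2 * (G : ℝ) - 1) * m)) * Ψdn (g * aM ((2 * (G : ℝ) - 1) * m))| ≤ CB := by
      rw [abs_mul, Real.abs_exp]
      exact (mul_le_of_le_one_left (abs_nonneg _) (Real.exp_le_one_iff.2 (by linarith))).trans (Nd _)
    exact (IR.FWD_abs (hIb g) (Iu _) (Id _) hx hy hz).trans (by linarith)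
  · intro g
    have hx : |-Ψbl g| ≤ CB * Real.exp (2 * (G * m)) := by
      rw [abs_neg]
      refine (Lb g).trans (mul_le_mul_of_nonneg_left (Real.exp_le_exp.2 (by linarith)) hCB.le)
    have hy : |Real.exp ((G : ℝ) * m) * Ψul (g * aM (G * m))| ≤ CB * Real.exp (2 * (G * m)) := by
      rw [abs_mul, Real.abs_exp]
      calc Real.exp ((G : ℝ) * m) * |Ψul (g * aM (G * m))| ≤ Real.exp ((G : ℝ) * m) * (CB * Real.exp ((G : ℝ) * m)) := mul_le_mul_of_nonneg_left (Lu _) (Real.exp_pos _).le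
        _ = CB * Real.exp (2 * (G * m)) := by
            rw [mul_left_comm, ← Real.exp_add]
            congr 2
            ring
    have hz : |Real.exp ((2 * (G : ℝ) - 1) * m) * Ψdl (g * aM ((2 * (G : ℝ) - 1) * m))| ≤ CB * Real.exp (2 * (G * m)) := by
      rw [abs_mul, Real.abs_exp]
      calc Real.exp ((2 * (G : ℝ) - 1) * m) * |Ψdl (g * aM ((2 * (G : ℝ) - 1) * m))| ≤ Real.exp ((2 * (G : ℝ) - 1) * m) * (CB * Real.exp m) :=
            mul_le_mul_of_nonneg_left (Ld _) (Real.exp_pos _).le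
        _ = CB * Real.exp (2 * (G * m)) := by
            rw [mul_left_comm, ← Real.exp_add]
            congr 2
            ring
    refine (IR.FWD_abs (hIb g) (Iu _) (Id _) hx hy hz).trans ?_
    have h1 : 0 ≤ Real.exp (2 * ((G : ℝ) * m)) := (Real.exp_pos _).le
    nlinarith
  · -- the mass
    have flm : ∀ (t : ℝ) (g : SL(2, ℝ)), fl Γ t (mkX Γ g) = mkX Γ (g * aM t) := (hXFL Γ).2.2.2.2.2.2.2.2.1
    have hsub : (E \ Low Γ μ β) \ IR.one Γ (fun g => (1 - Ψb g) * (Ψu (g * aM (G * m)) * Ψd (g * aM ((2 * (G : ℝ) - 1) * m)))) ⊆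
        (IR.BX Γ Ab (16 * b) (G * m) \ Low Γ μ β) ∪ (E \ (fl Γ ((G : ℝ) * m)) ⁻¹' IR.BX Γ Au b (G * m) ∪ E \ (fl Γ ((2 * (G : ℝ) - 1) * m)) ⁻¹' IR.BX Γ Ad b m) := by
      intro x hx
      obtain ⟨⟨hxE, hxL⟩, hx3⟩ := hx
      obtain ⟨g, rfl⟩ := (hXFL Γ).2.2.2.2.1 x
      by_contra hcon
      rw [mem_union, mem_union, not_or, not_or] at hcon
      obtain ⟨c1, c2, c3⟩ := hcon
      have d1 : fl Γ ((G : ℝ) * m) (mkX Γ g) ∈ IR.BX Γ Au b (G * m) := by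
        by_contra h5
        exact c2 ⟨hxE, h5⟩
      have d2 : fl Γ ((2 * (G : ℝ) - 1) * m) (mkX Γ g) ∈ IR.BX Γ Ad b m := by
        by_contra h5
        exact c3 ⟨hxE, h5⟩
      have d3 : Ψb g = 0 := by
        by_contra h5
        exact c1 ⟨IR.BK2_box' hXFL Γ Ab (16 * b) _ g (Zb g h5), hxL⟩
      apply hx3
      refine ⟨g, rfl, ?_⟩
      show (1 - Ψb g) * (Ψu (g * aM (G * m)) * Ψd (g * aM ((2 * (G : ℝ) - 1) * m))) = 1
      rw [d3, IR.FWD_one hXFL Bu g d1, IR.FWD_one hXFL Bd g d2]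
      norm_num
    obtain ⟨r, hr⟩ := hGe
    have hr1 : 1 ≤ r := by omega
    have e2q : 2 * ((r * m : ℕ) : ℝ) = (G : ℝ) * m := by
      have h1 : (G : ℝ) = r + r := by exact_mod_cast hr
      rw [h1]
      push_cast
      ring
    have m3 := hq0 (r * m) (hmc.trans (Nat.le_mul_of_pos_left m (by omega))) Ab (by
      rw [e2q]
      exact hAb)
    rw [e2q] at m3
    calc μ.real _ ≤ μ.real _ := measureReal_mono hsub (measure_ne_top _ _)
      _ ≤ μ.real _ + μ.real _ := measureReal_union_le _ _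
      _ ≤ δ / 3 + (δ / 3 + δ / 3) := add_le_add m3 ((measureReal_union_le _ _).trans (add_le_add mAu' mAd'))
      _ = δ := by ring
  · -- the leaf inequality
    intro g J c hAR
    have hYm : MeasurableSet (Icc (0 : ℝ) 1 ∩ {v | (1 - Ψb (g * lM v)) * (Ψu (g * lM v * aM (G * m)) * Ψd (g * lM v * aM ((2 * (G : ℝ) - 1) * m))) ≠ 0}) := by
      refine measurableSet_Icc.inter ?_
      have h3 : Continuous fun v : ℝ => (1 - Ψb (g * lM v)) * (Ψu (g * lM v * aM (G * m)) * Ψd (g * lM v * aM ((2 * (G : ℝ) - 1) * m))) :=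
        hS.i0.1.comp (continuous_const.mul hlM)
      exact (isOpen_ne_fun h3 continuous_const).measurableSet
    have h4 := hint g _ J c hYm inter_subset_left (fun v hv => by
      obtain ⟨-, hv2⟩ := hv
      have hv3 : (1 - Ψb (g * lM v)) * (Ψu (g * lM v * aM (G * m)) * Ψd (g * lM v * aM ((2 * (G : ℝ) - 1) * m))) ≠ 0 := hv2
      refine ⟨?_, ?_, ?_⟩
      · intro h5
        apply left_ne_zero_of_mul hv3
        rw [Bb _ h5, sub_self]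
      · exact Zu _ (left_ne_zero_of_mul (right_ne_zero_of_mul hv3))
      · exact Zd _ (right_ne_zero_of_mul (right_ne_zero_of_mul hv3))) hAR
    refine le_trans h4 ?_
    exact mul_le_mul_of_nonneg_right (hm2 m hmb) (Finset.sum_nonneg fun j _ => by positivity)

/-- **Row FGD** -/
theorem FGD_proof (hBXM : MS.BXM_stmt) (hSFP : IR.SFP_stmt) (hWCO : WCO_stmt) (hLOB : IR.LOB_stmt) (hLGD : LGD_stmt) (hXFL : EN.XFL_stmt) (hGLC : RS.GLC_stmt) : FGD_stmt := by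
  intro Γ μ E a η h β G hΓ hμ hinv ha ha2 hη haη hhη hβ hGe hG2 hexp hCO
  exact FGD_core hBXM hSFP hWCO hLOB hXFL hGLC Γ μ E a η h β G hΓ hμ hinv hη hhη hβ hGe hG2
    (fun C1 b hC1 hb hb' => hLGD Γ hΓ C1 a η h β b G hC1 ha ha2 hη haη hG2 hb hb' hexp) hCO

end

end Pool.Agent.LP
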